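import Pool.Agent.MP_2876a2_nt.Tu.Fin6

/-- For every `k ≥ 3` there are infinitely many sets of `k` pairwise coprime positive integers
with `∑ n / σ(n) = 1`. -/
theorem Pool.Agent.Results.MP_2876a2_nt.CoprimeTuples.result (k : ℕ) (hk : 3 ≤ k) :
    Set.Infinite {Z : Finset ℕ | Z.card = k ∧ (∀ n ∈ Z, 0 < n) ∧
      (∀ m ∈ Z, ∀ n ∈ Z, m ≠ n → Nat.Coprime m n) ∧
      ∑ n ∈ Z, (n : ℚ) / ((ArithmeticFunction.sigma 1 n : ℕ) : ℚ) = 1} :=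
  (Pool.Agent.MP_2876a2_nt.Tu.Z.coprime_tuples6 k hk).mono fun _ h =>
    ⟨h.1, h.2.1, fun _ hm _ hn hne => h.2.2.1 hm hn hne, h.2.2.2⟩
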