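import Pool.Agent.Mg.F2876a2.G27608c

/-- The coprime feebly amicable pairs `m < n` with at most five primes dividing `m * n` are exactly
`(64, 173369889)` and the pairs `(135, 7 * 2 ^ (p - 1) * (2 ^ p - 1))` with `p ≥ 5` and
`2 ^ p - 1` prime. -/
theorem Pool.Agent.Results.MP_2876a2_nt.FivePrimes.result (m n : ℕ) (hm : 0 < m) (hmn : m < n) :
    (Nat.Coprime m n ∧
      (m : ℚ) / ((ArithmeticFunction.sigma 1 m : ℕ) : ℚ) +
        (n : ℚ) / ((ArithmeticFunction.sigma 1 n : ℕ) : ℚ) = 1 ∧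
      (m * n).primeFactors.card ≤ 5) ↔
    ((m = 64 ∧ n = 173369889) ∨
      ∃ p : ℕ, 5 ≤ p ∧ Nat.Prime (2 ^ p - 1) ∧ m = 135 ∧ n = 7 * 2 ^ (p - 1) * (2 ^ p - 1)) :=
  Pool.Agent.MP_2876a2_nt.classification m n hm hmn
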